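import Mathlib

set_option autoImplicit false

/-!
# MP_6fec45_co, Q2 (disproof)

For `n = 4 ^ r` let `A` be the set of the vectors of `𝔽₂ⁿ` with at least `(n + √n) / 2` ones.  The
`2 n` affine functions on `𝔽₂^(2r)` form an additive complement of `A` (Parseval), every element of
`A + A` has at least `√n` zeros, and every coset of codimension `d` contains a vector with at most
`d` zeros.  So `2A` contains no coset of codimension less than `√n`, while `K = 2n`.
-/

namespace Pool.Agent.Results.MP_6fec45_co.LogCodimFails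

open Finset Pointwise

/-- The sign `(-1)^a`. -/
def sg (a : ZMod 2) : ℤ := if a = 0 then 1 else -1

theorem sg_add : ∀ a b : ZMod 2, sg (a + b) = sg a * sg b := by decide

theorem sg_mul_self : ∀ a : ZMod 2, sg a * sg a = 1 := by decide

theorem sg_sum {ι : Type} [DecidableEq ι] (s : Finset ι) (c : ι → ZMod 2) :
    sg (∑ j ∈ s, c j) = ∏ j ∈ s, sg (c j) := by
  induction s using Finset.induction_on with
  | empty => simp [sg]
  | insert a s ha ih => rw [Finset.sum_insert ha, Finset.prod_insert ha, sg_add, ih]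

theorem inner_sum : ∀ z : ZMod 2, ∑ b : ZMod 2, sg (b * z) = if z = 0 then 2 else 0 := by
  decide

theorem char_sum (m : ℕ) (z : Fin m → ZMod 2) :
    ∑ a : Fin m → ZMod 2, sg (∑ j, a j * z j) = if z = 0 then 2 ^ m else 0 := by
  have h1 : ∀ a : Fin m → ZMod 2, sg (∑ j, a j * z j) = ∏ j, sg (a j * z j) :=
    fun a => sg_sum univ _
  rw [Finset.sum_congr rfl (fun a _ => h1 a)]
  have h2 := Finset.prod_univ_sum (fun _ : Fin m => (univ : Finset (ZMod 2)))
    (fun (j : Fin m) (b : ZMod 2) => sg (b * z j))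
  rw [Fintype.piFinset_univ] at h2
  rw [← h2, Finset.prod_congr rfl (fun j _ => inner_sum (z j))]
  by_cases hz : z = 0
  · subst hz
    simp
  · rw [if_neg hz]
    have : ∃ j, z j ≠ 0 := by
      by_contra hcon
      push Not at hcon
      exact hz (funext hcon)
    obtain ⟨j, hj⟩ := this
    exact Finset.prod_eq_zero (mem_univ j) (if_neg hj)

/-- Parseval. -/
theorem parseval (m : ℕ) (F : (Fin m → ZMod 2) → ℤ) :
    ∑ a : Fin m → ZMod 2, (∑ x : Fin m → ZMod 2, F x * sg (∑ j, a j * x j)) ^ 2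
      = 2 ^ m * ∑ x, (F x) ^ 2 := by
  have h1 : ∀ a : Fin m → ZMod 2, (∑ x : Fin m → ZMod 2, F x * sg (∑ j, a j * x j)) ^ 2
      = ∑ x : Fin m → ZMod 2, ∑ y : Fin m → ZMod 2,
        F x * F y * sg (∑ j, a j * (x + y) j) := by
    intro a
    rw [sq, Finset.sum_mul_sum]
    refine Finset.sum_congr rfl (fun x _ => Finset.sum_congr rfl (fun y _ => ?_))
    have : (∑ j, a j * (x + y) j) = (∑ j, a j * x j) + ∑ j, a j * y j := by
      rw [← Finset.sum_add_distrib]
      refine Finset.sum_congr rfl (fun j _ => ?_)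
      rw [Pi.add_apply, mul_add]
    rw [this, sg_add]
    ring
  rw [Finset.sum_congr rfl (fun a _ => h1 a), Finset.sum_comm]
  rw [Finset.mul_sum]
  refine Finset.sum_congr rfl (fun x _ => ?_)
  rw [Finset.sum_comm]
  have h2 : ∀ y : Fin m → ZMod 2, ∑ a : Fin m → ZMod 2, F x * F y * sg (∑ j, a j * (x + y) j)
      = if y = x then 2 ^ m * (F x) ^ 2 else 0 := by
    intro y
    rw [← Finset.mul_sum, char_sum]
    by_cases hxy : y = x
    · subst hxy
      rw [if_pos rfl, if_pos (by ext j; exact CharTwo.add_self_eq_zero _)]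
      ring
    · rw [if_neg hxy, if_neg, mul_zero]
      intro h
      apply hxy
      ext1 j
      have hj := congrFun h j
      rw [Pi.add_apply, Pi.zero_apply] at hj
      exact (CharTwo.add_eq_zero.mp hj).symm
  rw [Finset.sum_congr rfl (fun y _ => h2 y), Finset.sum_ite_eq' univ x, if_pos (mem_univ x)]

/-- The number of ones. -/
def wt {n : ℕ} (f : Fin n → ZMod 2) : ℕ := (univ.filter (fun i => f i ≠ 0)).card

theorem wt_sum {n : ℕ} (f : Fin n → ZMod 2) : ∑ i, sg (f i) = (n : ℤ) - 2 * wt f := by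
  have h1 : ∀ i, sg (f i) = 1 - 2 * (if f i ≠ 0 then 1 else 0) := by
    intro i
    unfold sg
    by_cases h : f i = 0 <;> simp [h]
  rw [Finset.sum_congr rfl (fun i _ => h1 i), Finset.sum_sub_distrib, ← Finset.mul_sum,
    Finset.sum_boole]
  simp [wt]

/-- The affine function with linear part `a` and constant term `c`, read along `e`. -/
def aff {n m : ℕ} (e : Fin n ≃ (Fin m → ZMod 2)) (p : (Fin m → ZMod 2) × ZMod 2) :
    Fin n → ZMod 2 := fun i => (∑ j, p.1 j * e i j) + p.2

theorem aff_injective {n m : ℕ} (e : Fin n ≃ (Fin m → ZMod 2)) :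
    Function.Injective (aff e) := by
  intro p p' h
  have h0 : p.2 = p'.2 := by
    have := congrFun h (e.symm 0)
    simpa [aff] using this
  have h1 : p.1 = p'.1 := by
    ext1 j
    have := congrFun h (e.symm (Pi.single j 1))
    simpa [aff, h0, Pi.single_apply] using this
  exact Prod.ext h1 h0

theorem exists_aff {r : ℕ} (e : Fin (4 ^ r) ≃ (Fin (2 * r) → ZMod 2))
    (f : Fin (4 ^ r) → ZMod 2) : ∃ p, 4 ^ r + 2 ^ r ≤ 2 * wt (f + aff e p) := by
  have hP := parseval (2 * r) (fun x => sg (f (e.symm x)))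
  have hR : (2 : ℤ) ^ (2 * r) * ∑ x : Fin (2 * r) → ZMod 2, (sg (f (e.symm x))) ^ 2
      = 2 ^ (2 * r) * 2 ^ (2 * r) := by
    congr 1
    rw [Finset.sum_congr rfl (fun x _ => by rw [sq, sg_mul_self])]
    simp [ZMod.card]
  rw [hR] at hP
  have hex : ∃ a : Fin (2 * r) → ZMod 2, (2 : ℤ) ^ (2 * r) ≤
      (∑ x : Fin (2 * r) → ZMod 2, sg (f (e.symm x)) * sg (∑ j, a j * x j)) ^ 2 := by
    by_contra hcon
    push Not at hcon
    have hlt : ∑ a : Fin (2 * r) → ZMod 2,
        (∑ x : Fin (2 * r) → ZMod 2, sg (f (e.symm x)) * sg (∑ j, a j * x j)) ^ 2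
        < ∑ _a : Fin (2 * r) → ZMod 2, (2 : ℤ) ^ (2 * r) :=
      Finset.sum_lt_sum_of_nonempty univ_nonempty (fun a _ => hcon a)
    rw [hP] at hlt
    simp [ZMod.card] at hlt
  obtain ⟨a, ha⟩ := hex
  have hre : ∑ x : Fin (2 * r) → ZMod 2, sg (f (e.symm x)) * sg (∑ j, a j * x j)
      = (4 ^ r : ℕ) - 2 * (wt (f + aff e (a, 0)) : ℤ) := by
    rw [← wt_sum, ← e.sum_comp]
    refine Finset.sum_congr rfl (fun i _ => ?_)
    rw [Equiv.symm_apply_apply, Pi.add_apply, sg_add]
    simp [aff]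
  rw [hre] at ha
  have ht : ((2 : ℤ) ^ r) ^ 2 ≤ (((4 ^ r : ℕ) : ℤ) - 2 * (wt (f + aff e (a, 0)) : ℤ)) ^ 2 := by
    rw [← pow_mul, mul_comm r 2]
    exact ha
  have habs : (2 : ℤ) ^ r ≤ |((4 ^ r : ℕ) : ℤ) - 2 * (wt (f + aff e (a, 0)) : ℤ)| := by
    have := sq_le_sq.mp ht
    rwa [abs_of_pos (by positivity : (0 : ℤ) < 2 ^ r)] at this
  have hcompl : wt (f + aff e (a, 1)) + wt (f + aff e (a, 0)) = 4 ^ r := by
    unfold wt
    have h01 : ∀ i, (f + aff e (a, 1)) i = (f + aff e (a, 0)) i + 1 := by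
      intro i
      simp [aff]
      ring
    have hfil : univ.filter (fun i => (f + aff e (a, 1)) i ≠ 0)
        = univ.filter (fun i => ¬ ((f + aff e (a, 0)) i ≠ 0)) := by
      ext i
      simp only [mem_filter, mem_univ, true_and]
      rw [h01 i]
      generalize (f + aff e (a, 0)) i = y
      revert y
      decide
    rw [hfil, add_comm, Finset.card_filter_add_card_filter_not]
    simp
  rcases le_abs.mp habs with h | h
  · refine ⟨(a, 1), ?_⟩
    have h4 : ((4 ^ r : ℕ) : ℤ) = wt (f + aff e (a, 1)) + wt (f + aff e (a, 0)) := by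
      exact_mod_cast hcompl.symm
    zify
    push_cast at h h4 ⊢
    linarith
  · refine ⟨(a, 0), ?_⟩
    zify
    push_cast at h ⊢
    linarith

/-- The zeros. -/
def zs {n : ℕ} (f : Fin n → ZMod 2) : Finset (Fin n) := univ.filter (fun i => f i = 0)

theorem zeros_of_sum {n t : ℕ} (x y : Fin n → ZMod 2) (hx : n + t ≤ 2 * wt x)
    (hy : n + t ≤ 2 * wt y) : t ≤ (zs (x + y)).card := by
  have hsub : (univ.filter (fun i => x i ≠ 0)) ∩ (univ.filter (fun i => y i ≠ 0)) ⊆ zs (x + y) := by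
    intro i hi
    simp only [mem_inter, mem_filter, mem_univ, true_and] at hi
    simp only [zs, mem_filter, mem_univ, true_and, Pi.add_apply]
    obtain ⟨h1, h2⟩ := hi
    revert h1 h2
    generalize x i = a
    generalize y i = b
    revert a b
    decide
  have hcard := Finset.card_le_card hsub
  have hunion := Finset.card_union_add_card_inter (univ.filter (fun i => x i ≠ 0))
    (univ.filter (fun i => y i ≠ 0))
  have hle : ((univ.filter (fun i => x i ≠ 0)) ∪ (univ.filter (fun i => y i ≠ 0))).card ≤ n := by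
    have := Finset.card_le_univ ((univ.filter (fun i => x i ≠ 0)) ∪
      (univ.filter (fun i => y i ≠ 0)))
    simpa using this
  unfold wt at hx hy
  omega

/-- A coset of codimension `d` contains a vector with at most `d` zeros. -/
theorem coset_zeros {n t : ℕ} (W : Submodule (ZMod 2) (Fin n → ZMod 2)) (x : Fin n → ZMod 2)
    (h : ∀ w ∈ W, t ≤ (zs (x + w)).card) : Module.finrank (ZMod 2) W + t ≤ n := by
  classical
  obtain ⟨w0, hw0, hmin⟩ := Finset.exists_min_image
    (univ.filter (fun w : Fin n → ZMod 2 => w ∈ W)) (fun w => (zs (x + w)).card)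
    ⟨0, by simp⟩
  simp only [mem_filter, mem_univ, true_and] at hw0 hmin
  set J := zs (x + w0) with hJ
  let ρ : W →ₗ[ZMod 2] ({i // i ∉ J} → ZMod 2) :=
    (LinearMap.pi (fun i : {i // i ∉ J} => LinearMap.proj (i : Fin n))).comp W.subtype
  have hinj : Function.Injective ρ := by
    rw [← LinearMap.ker_eq_bot, LinearMap.ker_eq_bot']
    intro w hw
    have hout : ∀ i, i ∉ J → (w : Fin n → ZMod 2) i = 0 := by
      intro i hi
      have := congrFun hw ⟨i, hi⟩
      simpa [ρ] using this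
    have hsub : zs (x + (w0 + (w : Fin n → ZMod 2))) ⊆ J := by
      intro i hi
      by_contra hiJ
      have h0 := hout i hiJ
      simp only [zs, mem_filter, mem_univ, true_and, Pi.add_apply, h0, add_zero] at hi
      apply hiJ
      rw [hJ]
      simp only [zs, mem_filter, mem_univ, true_and, Pi.add_apply]
      exact hi
    have heq : zs (x + (w0 + (w : Fin n → ZMod 2))) = J :=
      Finset.eq_of_subset_of_card_le hsub (hmin _ (W.add_mem hw0 w.2))
    apply Subtype.ext
    ext1 i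
    by_cases hi : i ∈ J
    · have h1 : (x + w0) i = 0 := by
        rw [hJ] at hi
        simpa [zs] using hi
      have h2 : (x + (w0 + (w : Fin n → ZMod 2))) i = 0 := by
        rw [← heq] at hi
        simpa [zs] using hi
      rw [← add_assoc, Pi.add_apply, h1, zero_add] at h2
      exact h2
    · exact hout i hi
  have hfin := LinearMap.finrank_le_finrank_of_injective hinj
  rw [Module.finrank_fintype_fun_eq_card] at hfin
  have hc : Fintype.card {i // i ∉ J} = n - J.card := by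
    rw [Fintype.card_subtype_compl, Fintype.card_fin, Fintype.card_coe]
  have hJn : J.card ≤ n := by simpa using Finset.card_le_univ J
  have hJt : t ≤ J.card := h w0 hw0
  rw [hc] at hfin
  omega

/-- The explicit family. -/
theorem family (r : ℕ) : ∃ (A : Set (Fin (4 ^ r) → ZMod 2)) (S : Finset (Fin (4 ^ r) → ZMod 2)),
    S.card = 2 * 4 ^ r ∧ A + (S : Set (Fin (4 ^ r) → ZMod 2)) = Set.univ ∧
    ∀ (W : Submodule (ZMod 2) (Fin (4 ^ r) → ZMod 2)) (x : Fin (4 ^ r) → ZMod 2),
      (∀ w ∈ W, x + w ∈ A + A) → Module.finrank (ZMod 2) W + 2 ^ r ≤ 4 ^ r := by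
  classical
  have hcard : Fintype.card (Fin (4 ^ r)) = Fintype.card (Fin (2 * r) → ZMod 2) := by
    simp [ZMod.card, pow_mul]
  obtain ⟨e⟩ := Fintype.card_eq.mp hcard
  refine ⟨{f | 4 ^ r + 2 ^ r ≤ 2 * wt f}, univ.image (aff e), ?_, ?_, ?_⟩
  · rw [Finset.card_image_of_injective _ (aff_injective e)]
    simp [ZMod.card, pow_mul]
    ring
  · rw [Set.eq_univ_iff_forall]
    intro f
    obtain ⟨p, hp⟩ := exists_aff e f
    refine ⟨f + aff e p, hp, aff e p, ?_, ?_⟩
    · simp
    · ext i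
      show f i + aff e p i + aff e p i = f i
      rw [add_assoc, CharTwo.add_self_eq_zero, add_zero]
  · intro W x hW
    refine coset_zeros W x (fun w hw => ?_)
    obtain ⟨a, ha, b, hb, hab⟩ := hW w hw
    simp only at hab
    rw [← hab]
    exact zeros_of_sum a b ha hb

/-- **Q2 has a negative answer.**  For every `r` there is a set `A ⊆ 𝔽₂ⁿ`, `n = 4 ^ r`, with an
additive complement of size `K = 2 n` such that every coset contained in `2A` has codimension at
least `2 ^ r = √(K / 2)`.  Hence for every `C` there are `n`, `K` and `A ⊆ 𝔽₂ⁿ` with an additive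
complement of size `K` such that every coset contained in `2A` has codimension greater than
`C log (2 K)`. -/
theorem result :
    (∀ r : ℕ, ∃ (A : Set (Fin (4 ^ r) → ZMod 2)) (S : Finset (Fin (4 ^ r) → ZMod 2)),
      S.card = 2 * 4 ^ r ∧ A + (S : Set (Fin (4 ^ r) → ZMod 2)) = Set.univ ∧
      ∀ (W : Submodule (ZMod 2) (Fin (4 ^ r) → ZMod 2)) (x : Fin (4 ^ r) → ZMod 2),
        (∀ w ∈ W, x + w ∈ A + A) → Module.finrank (ZMod 2) W + 2 ^ r ≤ 4 ^ r) ∧
    ∀ C : ℝ, ∃ (n K : ℕ) (A : Set (Fin n → ZMod 2)) (S : Finset (Fin n → ZMod 2)),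
      S.card = K ∧ A + (S : Set (Fin n → ZMod 2)) = Set.univ ∧
      ∀ (W : Submodule (ZMod 2) (Fin n → ZMod 2)) (x : Fin n → ZMod 2),
        (∀ w ∈ W, x + w ∈ A + A) →
          C * Real.log (2 * K) < (n : ℝ) - Module.finrank (ZMod 2) W := by
  refine ⟨family, ?_⟩
  intro C
  obtain ⟨k, hk⟩ := exists_nat_gt (6 * |C|)
  obtain ⟨A, S, hS, hAS, hW⟩ := family (2 * k)
  refine ⟨4 ^ (2 * k), 2 * 4 ^ (2 * k), A, S, hS, hAS, ?_⟩
  intro W x hx
  have h1 := hW W x hx
  have h2 : ((2 : ℝ) ^ k) * 2 ^ k ≤ ((4 ^ (2 * k) : ℕ) : ℝ) - Module.finrank (ZMod 2) W := by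
    have h3 : ((Module.finrank (ZMod 2) W + 2 ^ (2 * k) : ℕ) : ℝ) ≤ ((4 ^ (2 * k) : ℕ) : ℝ) := by
      exact_mod_cast h1
    push_cast at h3 ⊢
    have h4 : (2 : ℝ) ^ (2 * k) = 2 ^ k * 2 ^ k := by rw [two_mul, pow_add]
    linarith
  refine lt_of_lt_of_le ?_ h2
  have hlog : Real.log (2 * ((2 * 4 ^ (2 * k) : ℕ) : ℝ)) ≤ 4 * k + 2 := by
    have : (2 * ((2 * 4 ^ (2 * k) : ℕ) : ℝ)) = 2 ^ (4 * k + 2) := by
      push_cast
      rw [show (4 : ℝ) = 2 ^ 2 by norm_num, ← pow_mul]
      ring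
    rw [this, Real.log_pow]
    push_cast
    have hl2 : Real.log 2 ≤ 1 := by linarith [Real.log_two_lt_d9]
    have hpos : (0 : ℝ) ≤ 4 * k + 2 := by positivity
    nlinarith
  have hlog0 : 0 ≤ Real.log (2 * ((2 * 4 ^ (2 * k) : ℕ) : ℝ)) := by
    apply Real.log_nonneg
    have : (1 : ℝ) ≤ 4 ^ (2 * k) := one_le_pow₀ (by norm_num)
    push_cast
    linarith
  have hk2 : (k : ℝ) < 2 ^ k := by exact_mod_cast Nat.lt_two_pow_self
  have h1k : (1 : ℝ) ≤ 2 ^ k := one_le_pow₀ (by norm_num)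
  calc C * Real.log (2 * ((2 * 4 ^ (2 * k) : ℕ) : ℝ))
      ≤ |C| * Real.log (2 * ((2 * 4 ^ (2 * k) : ℕ) : ℝ)) :=
        mul_le_mul_of_nonneg_right (le_abs_self C) hlog0
    _ ≤ |C| * (4 * k + 2) := mul_le_mul_of_nonneg_left hlog (abs_nonneg C)
    _ ≤ |C| * (6 * 2 ^ k) := mul_le_mul_of_nonneg_left (by linarith) (abs_nonneg C)
    _ = (6 * |C|) * 2 ^ k := by ring
    _ < 2 ^ k * 2 ^ k := by
        apply mul_lt_mul_of_pos_right (lt_trans hk hk2) (by positivity)

end Pool.Agent.Results.MP_6fec45_co.LogCodimFails
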